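import Mathlib
import Pool.Agent.Helper22.Rev.Main

/-!
# MP_2efe30_an: rigidity of reversible generalised interval exchange maps, all genera

For almost every standard interval exchange map with the symmetric permutation, a generalised
interval exchange map topologically conjugate to it is conjugate to it with a Hölder continuous
derivative if and only if it is reversible in the same class.
-/

set_option autoImplicit false

open Set MeasureTheory
open Pool.Agent.Helper22.Rev

namespace Pool.Agent.Results.MP_2efe30_an.ReversibleRigidity

theorem result (n : ℕ) : ∀ᵐ l : Fin (n + 2) → ℝ, (∀ i, 0 < l i) →
    ∀ T0 T : ℝ → ℝ, IsStd l T0 → IsGiet l T → TopConj l T T0 →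
      (C1HolderConj l T T0 ↔ Reversible l T) :=
  main_iff n

end Pool.Agent.Results.MP_2efe30_an.ReversibleRigidity
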